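import Pool.Agent.Helper90.MZ.StmtsC

/-!
# MP_79eb7e_lc, full answer: module TLS
-/

set_option autoImplicit false

namespace Pool.Agent.Helper90.MZ

open Pool.Agent.Helper90.TS

/-- union of the ranges over an index set -/
def tls_Z {V κ : Type} (z : κ → Fin 1 → V) (I : Set κ) : Set V := ⋃ i ∈ I, Set.range (z i)

theorem tls_cnt {V κ : Type} [Countable κ] (z : κ → Fin 1 → V) (I : Set κ) :
    (tls_Z z I).Countable :=
  (Set.to_countable I).biUnion fun i _ => Set.countable_range (z i)

theorem tls_mono {V κ : Type} (z : κ → Fin 1 → V) {I J : Set κ} (h : I ⊆ J) :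
    tls_Z z I ⊆ tls_Z z J := Set.biUnion_subset_biUnion_left h

theorem tls_union {V κ : Type} (z : κ → Fin 1 → V) (I J : Set κ) :
    tls_Z z (I ∪ J) = tls_Z z I ∪ tls_Z z J := Set.biUnion_union I J _

theorem tls_single {V κ : Type} (z : κ → Fin 1 → V) (i : κ) :
    tls_Z z {i} = Set.range (z i) := by
  unfold tls_Z
  rw [Set.biUnion_singleton]

theorem tls_empty {V κ : Type} (z : κ → Fin 1 → V) : tls_Z z ∅ = ∅ := by
  unfold tls_Z
  rw [Set.biUnion_empty]

theorem tls_fin {V κ : Type} (z : κ → Fin 1 → V) (I : Set κ) (C : Set V) (hC : C.Finite)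
    (h : C ⊆ tls_Z z I) : ∃ F : Set κ, F.Finite ∧ F ⊆ I ∧ C ⊆ tls_Z z F := by
  have h1 : ∀ c : C, ∃ i : κ, i ∈ I ∧ (c : V) ∈ Set.range (z i) := by
    intro c
    have h2 := h c.2
    unfold tls_Z at h2
    rw [Set.mem_iUnion₂] at h2
    obtain ⟨i, hi, hci⟩ := h2
    exact ⟨i, hi, hci⟩
  choose f hf using h1
  haveI : Finite C := hC.to_subtype
  refine ⟨Set.range f, Set.finite_range f, ?_, ?_⟩
  · rintro _ ⟨c, rfl⟩
    exact (hf c).1
  · intro c hc
    unfold tls_Z
    rw [Set.mem_iUnion₂]
    exact ⟨f ⟨c, hc⟩, ⟨⟨c, hc⟩, rfl⟩, (hf ⟨c, hc⟩).2⟩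

theorem st_TLS (hTL : ST_TL) (hRLB : ST_RLB) (hIND : ST_IND) : ST_TLS := by
  intro V G _ _ X s p A Y κ _ l z hp hno hA hY hrl hind hiY
  have hpA : ∀ i, (p i).A ∪ A = A := fun i => Set.union_eq_self_of_subset_left (hp i).2.2
  have hrc : ∀ i, (Set.range (z i)).Countable := fun i => Set.countable_range _
  -- the main induction
  have key : ∀ t : ℕ, t ≤ s → SI X A (tls_Z z {i | (l i : ℕ) < t}) Y := by
    intro t
    induction t with
    | zero =>
      intro _
      have h0 : {i : κ | (l i : ℕ) < 0} = ∅ := by
        ext i
        simp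
      rw [h0, tls_empty]
      exact si_empty_left
    | succ t ih =>
      intro ht
      have hts : t < s := ht
      have hP : SI X A (tls_Z z {i | (l i : ℕ) < t}) Y := ih hts.le
      set Zt : Set V := tls_Z z {i | (l i : ℕ) < t} with hZt
      have hZtc : Zt.Countable := tls_cnt z _
      -- finite subfamilies
      have hQ : ∀ i : κ, (l i : ℕ) = t → ∀ F : Set κ, F.Finite → F ⊆ {j | (l j : ℕ) < t} →
          SI X A (Set.range (z i)) (Y ∪ tls_Z z F) := by
        intro i hi F hF
        refine Set.Finite.induction_on (motive := fun F _ => F ⊆ {j | (l j : ℕ) < t} →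
          SI X A (Set.range (z i)) (Y ∪ tls_Z z F)) F hF ?_ ?_
        · intro _
          rw [tls_empty, Set.union_empty]
          exact hiY i
        · intro j F hj hFfin ihF hsub
          have hF' : F ⊆ {j | (l j : ℕ) < t} := (Set.subset_insert j F).trans hsub
          have hjt : (l j : ℕ) < t := hsub (Set.mem_insert j F)
          have h1 := ihF hF'
          set W : Set V := Y ∪ tls_Z z F with hW
          have hWc : W.Countable := hY.union (tls_cnt z F)
          have hBc : (A ∪ W).Countable := hA.union hWc
          -- z i over A ∪ W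
          have h2 : Rl X (p (l i)) (A ∪ W) (z i) := by
            refine (hRLB V G X (p (l i)) (hp (l i)).1 A hA).2.2.2.1 (z i) W hWc (hrl i) ?_
            rw [hpA]
            exact h1
          -- z j over A ∪ W
          have h3 : SI X A (Set.range (z j)) W := by
            have h4 : SI X A (tls_Z z F ∪ Set.range (z j)) Y := by
              refine si_left ?_ hP
              rw [← tls_single z j, ← tls_union]
              refine tls_mono z ?_
              intro k hk
              rcases hk with hk | hk
              · exact hF' hk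
              · rw [Set.mem_singleton_iff] at hk
                rw [hk]
                exact hjt
            have h5 := ((si_unionl hA (tls_cnt z F) hY (hrc j)).1 h4).2
            have h6 : SI X A (Set.range (z j)) (tls_Z z F) := by
              have h7 := hind {j} F (by
                rw [Set.disjoint_singleton_left]
                exact hj)
              rw [Set.biUnion_singleton] at h7
              exact h7
            have h8 := si_trans hA (hrc j) (tls_cnt z F) hY h6 h5
            rw [hW, Set.union_comm]
            exact h8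
          have h9 : Rl X (p (l j)) (A ∪ W) (z j) := by
            refine (hRLB V G X (p (l j)) (hp (l j)).1 A hA).2.2.2.1 (z j) W hWc (hrl j) ?_
            rw [hpA]
            exact h3
          have hne : l i ≠ l j := by
            intro h
            rw [h] at hi
            omega
          have h10 : SI X (A ∪ W) (Set.range (z i)) (Set.range (z j)) := by
            by_contra hcon
            exact hno (l i) (l j) hne ⟨A ∪ W, z i, z j, hBc,
              (hp (l i)).2.2.trans Set.subset_union_left,
              (hp (l j)).2.2.trans Set.subset_union_left, h2, h9, hcon⟩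
          have h11 := si_trans hA (hrc i) hWc (hrc j) h1 h10
          have h12 : Y ∪ tls_Z z (insert j F) = W ∪ Set.range (z j) := by
            rw [Set.insert_eq, tls_union, tls_single, hW]
            rw [Set.union_comm (Set.range (z j)), Set.union_assoc]
          rw [h12]
          exact h11
      -- all elements below
      have hR : ∀ i : κ, (l i : ℕ) = t → SI X A (Set.range (z i)) (Zt ∪ Y) := by
        intro i hi
        refine si_finite hA (hrc i) (hZtc.union hY) ?_
        intro B0 C0 hB0 hC0 hB0f hC0f
        obtain ⟨F, hF, hFs, hCF⟩ := tls_fin z {j | (l j : ℕ) < t} (C0 ∩ Zt)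
          (hC0f.subset Set.inter_subset_left) Set.inter_subset_right
        have h1 := hQ i hi F hF hFs
        have h2 : C0 ⊆ Y ∪ tls_Z z F := by
          intro c hc
          rcases hC0 hc with h | h
          · exact Or.inr (hCF ⟨hc, h⟩)
          · exact Or.inl h
        exact si_left hB0 (si_right hA (hrc i) (hY.union (tls_cnt z F)) h2 h1)
      -- the index set of the new elements
      set T : Set κ := {i | (l i : ℕ) = t} with hT
      let pt : Ty V := p ⟨t, hts⟩
      have hlt : ∀ i : T, l i.1 = ⟨t, hts⟩ := by
        intro i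
        apply Fin.ext
        exact i.2
      have hA' : (A ∪ Zt).Countable := hA.union hZtc
      have hpA' : pt.A ∪ (A ∪ Zt) = A ∪ Zt :=
        Set.union_eq_self_of_subset_left ((hp ⟨t, hts⟩).2.2.trans Set.subset_union_left)
      have hU : (⋃ i : T, Set.range (z i.1)) = tls_Z z T := by
        unfold tls_Z
        rw [Set.iUnion_subtype (fun i => i ∈ T) (fun i : {i // i ∈ T} => Set.range (z i.1))]
      have hTZ : SI X A (tls_Z z T) Zt := by
        refine hind T {i | (l i : ℕ) < t} ?_
        rw [Set.disjoint_left]
        intro i hi1 hi2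
        have e1 : (l i : ℕ) = t := hi1
        have e2 : (l i : ℕ) < t := hi2
        omega
      obtain ⟨-, -, hI3, hI4, -⟩ := hIND V G X A hA
      have hind' : Ind X (A ∪ Zt) (fun i : T => Set.range (z i.1)) := by
        refine hI4 T (fun i : T => Set.range (z i.1)) Zt (fun i => hrc i.1) hZtc
          (hI3 κ T (fun i => Set.range (z i)) (fun i : T => i.1) Subtype.val_injective hind) ?_
        rw [hU]
        exact hTZ
      have hTLa : SI X (A ∪ Zt) (tls_Z z T) Y := by
        have h1 := hTL V G X pt (A ∪ Zt) Y T (fun i : T => z i.1) (hp ⟨t, hts⟩).1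
          (hp ⟨t, hts⟩).2.1 hA' hY ?_ ?_ ?_
        · rw [hpA', hU] at h1
          exact h1
        · intro i
          have h2 := hrl i.1
          rw [hlt i] at h2
          refine (hRLB V G X pt (hp ⟨t, hts⟩).1 A hA).2.2.2.1 (z i.1) Zt hZtc h2 ?_
          rw [hpA]
          exact si_right hA (hrc i.1) (hZtc.union hY) Set.subset_union_left (hR i.1 i.2)
        · rw [hpA']
          exact hind'
        · intro i
          rw [hpA']
          exact ((si_union hA (hrc i.1) hZtc hY).1 (hR i.1 i.2)).2
      have h13 := si_transl hA hZtc hY (tls_cnt z T) hP hTLa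
      have h14 : tls_Z z {i | (l i : ℕ) < t + 1} = Zt ∪ tls_Z z T := by
        rw [hZt, ← tls_union]
        congr 1
        ext i
        show (l i : ℕ) < t + 1 ↔ (l i : ℕ) < t ∨ (l i : ℕ) = t
        omega
      rw [h14]
      exact h13
  have h15 := key s le_rfl
  have h16 : tls_Z z {i | (l i : ℕ) < s} = ⋃ i, Set.range (z i) := by
    unfold tls_Z
    ext x
    rw [Set.mem_iUnion₂, Set.mem_iUnion]
    constructor
    · rintro ⟨i, -, hx⟩
      exact ⟨i, hx⟩
    · rintro ⟨i, hx⟩
      exact ⟨i, (l i).2, hx⟩
  rw [h16] at h15
  exact h15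

end Pool.Agent.Helper90.MZ
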